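import Pool.Agent.Lib.MP_3c4fb9_al.Final

set_option autoImplicit false

namespace Pool.Agent.Results.MP_3c4fb9_al.Full

open Pool.Agent.Lib.MP_3c4fb9_al

theorem result (N k l p q : ℕ) (A B S T : Matrix (Fin N) (Fin N) ℂ)
    (hS : IsUnit S) (hT : IsUnit T)
    (δ n : Fin (k + 1) → ℕ) (ε m : Fin (l + 1) → ℕ)
    (γ : Fin p → ℕ) (μ : Fin p → ℂ) (β : Fin q → ℕ)
    (hδ0 : δ 0 = 0) (hδ : StrictMono δ) (hε0 : ε 0 = 0) (hε : StrictMono ε)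
    (eR : Fin N ≃ Rows δ n ε m γ β) (eC : Fin N ≃ Cols δ n ε m γ β)
    (hK : ∀ z : ℂ, S * (A + z • B) * T = (kcf δ n ε m γ μ β z).submatrix eR eC)
    (h1 : ∀ i, i ≠ 0 → δ i * n i ≤ ∑ i' ∈ Finset.Iio i, n i')
    (h2 : ∀ j, j ≠ 0 → ε j * m j ≤ ∑ j' ∈ Finset.Iio j, m j') :
    ∃ E : Matrix (Fin N) (Fin N) ℂ, IsUnit E ∧ E * A * (E * B) = E * B * (E * A) := by
  refine main A B S T hS hT δ n ε m γ μ β hδ hε eR eC hK (fun i => ?_) (fun j => ?_)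
  · by_cases h : i = 0
    · subst h; simp [hδ0]
    · exact h1 i h
  · by_cases h : j = 0
    · subst h; simp [hε0]
    · exact h2 j h

end Pool.Agent.Results.MP_3c4fb9_al.Full
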